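import Pool.Agent.Helper90.LSp.Topo

set_option autoImplicit false

open Set Filter Topology

namespace Pool.Agent.Results.MP_b9a716_gt.HerGrothendieckNotHS

/-- `A ⊆ X` is countably compact in `X`: every infinite subset of `A` has an accumulation
point in `X` (a point `p` every neighbourhood of which contains a point of the subset other
than `p`). -/
def CountablyCompactIn {X : Type} [TopologicalSpace X] (A : Set X) : Prop :=
  ∀ E ⊆ A, E.Infinite → ∃ p : X, AccPt p (𝓟 E)

/-- `X` is a g-space: the closure of every `A ⊆ X` which is countably compact in `X` is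
compact. -/
def GSpace (X : Type) [TopologicalSpace X] : Prop :=
  ∀ A : Set X, CountablyCompactIn A → IsCompact (closure A)

/-- `C_p(X)`: the continuous functions `X → ℝ` with the subspace topology from the product
`ℝ^X`. -/
abbrev Cp (X : Type) [TopologicalSpace X] : Type := {f : X → ℝ // Continuous f}

/-- `X` is Grothendieck: every subspace of `C_p(X)` is a g-space. -/
def Grothendieck (X : Type) [TopologicalSpace X] : Prop :=
  ∀ Y : Set (Cp X), GSpace Y

/-- every subspace of `X` is Grothendieck. -/
def HereditarilyGrothendieck (X : Type) [TopologicalSpace X] : Prop :=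
  ∀ Z : Set X, Grothendieck Z

/-- every subspace of `X` is separable. -/
def HereditarilySeparable (X : Type) [TopologicalSpace X] : Prop :=
  ∀ Z : Set X, TopologicalSpace.SeparableSpace Z

/-- a type of order type `ω₁` -/
abbrev O1 : Type := (Cardinal.aleph 1).ord.ToType

instance : Pool.Agent.Helper90.LSp.W1 O1 where
  wf := inferInstance
  cnt a := by
    rw [Cardinal.countable_iff_lt_aleph_one]
    exact Cardinal.mk_Iio_toType_ord_lt a
  unc h := by
    rw [Cardinal.countable_iff_lt_aleph_one, Cardinal.mk_univ, Cardinal.mk_ord_toType] at h
    exact lt_irrefl _ h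

/-- There is (in ZFC) a hereditarily Grothendieck Tychonoff space which is not hereditarily
separable. -/
theorem result : ∃ (X : Type) (_ : TopologicalSpace X), T35Space X ∧
    HereditarilyGrothendieck X ∧ ¬ HereditarilySeparable X := by
  refine ⟨Pool.Agent.Helper90.LSp.XL O1, inferInstance, Pool.Agent.Helper90.LSp.XL_t35,
    fun Z Y A hA => Pool.Agent.Helper90.LSp.XL_groth Z Y A hA, fun h => ?_⟩
  have h1 := h univ
  apply Pool.Agent.Helper90.LSp.XL_nonsep (Ω := O1)
  exact (Homeomorph.Set.univ _).surjective.denseRange.separableSpace
    (Homeomorph.Set.univ _).continuous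

end Pool.Agent.Results.MP_b9a716_gt.HerGrothendieckNotHS
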